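import Pool.Agent.MatchedKnot.Defs

/-!
A chain of moves from the standard diagram of `8₁₈` to a matched diagram.
-/

namespace Pool.Agent.MatchedKnot

/-- The local moves as data. -/
inductive Rule
  | far (p q : Kind) (i d : ℕ)
  | zigzagLeft (i : ℕ)
  | zigzagRight (i : ℕ)
  | slideCup (i : ℕ) (s : Bool)
  | slideCap (i : ℕ) (s : Bool)
  | oneCup (i : ℕ) (s : Bool)
  | oneCap (i : ℕ) (s : Bool)
  | two (i : ℕ) (s : Bool)
  | three (i : ℕ) (s : Bool)

/-- The left side of a move. -/
def Rule.lhs : Rule → Word
  | .far p q i d => [(p, i), (q, i + d + p.outs)]
  | .zigzagLeft i => [(.cup, i), (.cap, i + 1)]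
  | .zigzagRight i => [(.cup, i + 1), (.cap, i)]
  | .slideCup i s => [(.cup, i), (.cross s, i + 1)]
  | .slideCap i s => [(.cross s, i + 1), (.cap, i)]
  | .oneCup i s => [(.cup, i), (.cross s, i)]
  | .oneCap i s => [(.cross s, i), (.cap, i)]
  | .two i s => [(.cross s, i), (.cross !s, i)]
  | .three i s => [(.cross s, i), (.cross s, i + 1), (.cross s, i)]

/-- The right side of a move. -/
def Rule.rhs : Rule → Word
  | .far p q i d => [(q, i + d + p.ins), (p, i)]
  | .zigzagLeft _ => []
  | .zigzagRight _ => []
  | .slideCup i s => [(.cup, i + 1), (.cross !s, i)]
  | .slideCap i s => [(.cross !s, i), (.cap, i + 1)]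
  | .oneCup i _ => [(.cup, i)]
  | .oneCap i _ => [(.cap, i)]
  | .two _ _ => []
  | .three i s => [(.cross s, i + 1), (.cross s, i), (.cross s, i + 1)]

lemma Rule.move (r : Rule) : Move r.lhs r.rhs := by
  cases r <;> constructor

/-- Replace `l` by `r` at the place `k` of the word `w`. -/
def rewriteAt (w : Word) (k : ℕ) (l r : Word) : Option Word :=
  if (w.drop k).take l.length = l ∧ IsDiagram (w.take k ++ r ++ (w.drop k).drop l.length) then
    some (w.take k ++ r ++ (w.drop k).drop l.length) else none

lemma rewriteAt_spec {w w' l r : Word} {k : ℕ} (h : rewriteAt w k l r = some w') :
    ∃ a b, w = a ++ l ++ b ∧ w' = a ++ r ++ b ∧ IsDiagram w' := by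
  unfold rewriteAt at h
  split_ifs at h with hc
  obtain ⟨h1, h2⟩ := hc
  have hw : w.take k ++ r ++ (w.drop k).drop l.length = w' := Option.some.inj h
  refine ⟨w.take k, (w.drop k).drop l.length, ?_, hw.symm, hw ▸ h2⟩
  calc w = w.take k ++ w.drop k := (List.take_append_drop k w).symm
    _ = w.take k ++ ((w.drop k).take l.length ++ (w.drop k).drop l.length) := by
        rw [List.take_append_drop l.length (w.drop k)]
    _ = w.take k ++ l ++ (w.drop k).drop l.length := by rw [h1, List.append_assoc]

/-- Apply a list of moves, each of which is given by the place, the move and the direction. -/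
def run : Word → List (ℕ × Rule × Bool) → Option Word
  | w, [] => some w
  | w, (k, r, d) :: L =>
    match rewriteAt w k (if d then r.lhs else r.rhs) (if d then r.rhs else r.lhs) with
    | some w' => run w' L
    | none => none

lemma isotopic_of_run {L : List (ℕ × Rule × Bool)} {w w' : Word} (hw : IsDiagram w)
    (h : run w L = some w') : Isotopic w w' := by
  induction L generalizing w with
  | nil =>
    have : w = w' := Option.some.inj h
    exact this ▸ Isotopic.refl w
  | cons x L ih =>
    obtain ⟨k, r, d⟩ := x
    unfold run at h
    split at h
    · rename_i w₁ hw₁
      obtain ⟨a, b, e1, e2, h2⟩ := rewriteAt_spec hw₁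
      refine Isotopic.trans ?_ (ih h2 h)
      subst e1 e2
      cases d
      · exact Isotopic.symm (Isotopic.move a b r.move h2 hw)
      · exact Isotopic.move a b r.move hw h2
    · exact absurd h (by simp)

/-- The chain of moves. -/
def chain : List (ℕ × Rule × Bool) :=
  [(2, .far (.cross true) .cup 0 0, false), (8, .two 2 false, false),
    (3, .slideCup 1 true, false), (4, .far (.cross true) (.cross true) 0 0, false),
    (7, .far (.cross true) (.cross false) 0 0, true), (8, .two 1 false, false),
    (6, .three 1 false, true), (5, .two 2 true, true), (3, .oneCup 1 true, false),
    (4, .two 0 false, false), (5, .three 0 true, true), (7, .two 1 true, true),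
    (6, .far (.cross true) (.cross false) 0 0, true), (7, .three 0 true, true),
    (9, .two 2 false, false), (10, .three 1 true, false), (12, .two 1 true, true),
    (11, .far (.cross true) (.cross true) 0 0, false), (14, .oneCap 2 false, false),
    (15, .two 1 false, false), (13, .three 1 false, true), (12, .two 2 true, true),
    (10, .two 0 false, false), (11, .three 0 true, true), (13, .two 1 true, true),
    (9, .far (.cross false) (.cross false) 0 0, false), (8, .two 0 true, true),
    (5, .two 2 false, false), (6, .two 1 false, false), (7, .three 1 true, true),
    (9, .two 2 true, true), (3, .slideCup 0 true, false),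
    (2, .far .cup (.cross true) 0 0, false), (1, .far .cup .cup 0 1, false),
    (0, .far .cup .cup 0 0, false), (7, .two 2 false, false), (5, .three 1 false, false),
    (4, .two 1 true, true), (3, .two 2 true, true), (2, .far (.cross false) .cup 1 0, false),
    (9, .two 2 false, false), (12, .far (.cross true) (.cross false) 0 0, true),
    (10, .two 1 false, false), (11, .three 1 true, true), (13, .two 2 true, true),
    (14, .slideCap 1 false, false), (13, .far (.cross true) (.cross false) 0 0, true),
    (11, .two 1 false, false), (12, .three 1 true, true), (14, .two 2 true, true),
    (14, .slideCap 0 false, false), (13, .two 1 true, true),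
    (12, .far .cap (.cross true) 0 0, false), (5, .two 1 true, false),
    (9, .two 2 true, false), (7, .three 1 true, false), (6, .two 1 false, true),
    (4, .three 1 true, false), (3, .far (.cross true) .cup 1 0, false),
    (2, .two 1 false, true), (9, .zigzagLeft 3, false),
    (10, .far (.cross false) .cap 2 0, false), (11, .far (.cross false) .cap 1 1, false),
    (12, .far (.cross false) .cap 1 1, false), (13, .far .cap .cap 0 2, false),
    (14, .far (.cross true) .cap 0 0, false), (15, .oneCap 2 true, false),
    (9, .slideCup 2 true, false), (8, .far .cup (.cross false) 2 0, false),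
    (10, .far (.cross false) (.cross true) 1 0, false),
    (11, .far (.cross false) (.cross true) 1 0, false),
    (12, .far .cap (.cross true) 0 1, false),
    (9, .far (.cross false) (.cross false) 1 1, false),
    (10, .far (.cross false) (.cross false) 1 1, false),
    (11, .far .cap (.cross false) 0 2, false),
    (14, .far (.cross true) (.cross true) 0 0, true), (15, .two 1 true, false),
    (13, .three 1 true, true), (12, .two 2 false, true), (8, .slideCup 1 true, false),
    (7, .far .cup (.cross true) 1 0, false), (6, .far .cup (.cross false) 1 1, false),
    (5, .far .cup (.cross true) 1 0, false), (4, .far .cup (.cross true) 1 0, false),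
    (3, .far .cup (.cross true) 1 1, false), (2, .far .cup .cup 1 2, false),
    (1, .far .cup .cup 1 1, false), (11, .far .cap (.cross true) 0 1, true),
    (10, .far (.cross false) (.cross true) 1 0, true), (8, .three 2 true, false),
    (7, .far (.cross true) (.cross false) 2 0, false),
    (12, .far .cap (.cross true) 0 2, true),
    (11, .far (.cross false) (.cross true) 1 1, true),
    (10, .far (.cross true) (.cross true) 2 0, true), (11, .two 3 true, false),
    (9, .three 3 true, true), (8, .two 4 false, true), (6, .three 2 true, false),
    (5, .three 2 true, false), (4, .far (.cross true) (.cross true) 2 0, false),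
    (3, .far (.cross true) .cup 2 1, false), (2, .far (.cross true) .cup 2 0, false),
    (8, .far (.cross true) (.cross true) 2 0, true),
    (7, .far (.cross true) (.cross true) 2 0, true), (5, .three 3 true, false),
    (4, .far (.cross true) .cup 3 0, false), (3, .slideCup 3 false, false),
    (5, .slideCup 4 false, false), (4, .far .cup (.cross false) 4 0, false),
    (6, .far (.cross true) (.cross false) 3 0, false),
    (7, .far (.cross true) (.cross false) 2 1, false),
    (8, .far (.cross true) (.cross false) 2 1, false),
    (9, .far (.cross false) (.cross false) 3 0, false),
    (10, .far (.cross true) (.cross false) 2 1, false),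
    (11, .far (.cross false) (.cross false) 1 2, false),
    (12, .far .cap (.cross false) 0 3, false),
    (13, .far (.cross false) (.cross false) 1 0, false),
    (14, .far (.cross true) (.cross false) 0 1, false),
    (5, .far (.cross true) (.cross false) 3 1, false),
    (6, .far (.cross true) (.cross false) 2 2, false),
    (7, .far (.cross true) (.cross false) 2 2, false),
    (8, .far (.cross false) (.cross false) 3 1, false),
    (9, .far (.cross true) (.cross false) 2 2, false),
    (10, .far (.cross false) (.cross false) 1 3, false),
    (11, .far .cap (.cross false) 0 4, false),
    (12, .far (.cross false) (.cross false) 1 1, false),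
    (13, .far (.cross true) (.cross false) 0 2, false),
    (13, .far (.cross true) (.cross false) 0 2, true),
    (14, .far (.cross true) (.cross false) 0 1, true),
    (15, .far (.cross true) .cap 0 0, true), (16, .slideCap 0 false, false),
    (17, .far .cap .cap 0 0, true), (16, .slideCap 1 true, false),
    (15, .far .cap (.cross true) 2 0, true), (13, .two 3 true, false),
    (14, .three 3 false, true), (16, .two 4 false, true), (4, .slideCup 3 false, false),
    (3, .far .cup .cup 3 0, false), (5, .far (.cross true) (.cross false) 2 0, false),
    (6, .far (.cross true) (.cross false) 2 0, false),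
    (4, .far (.cross true) .cup 2 1, false), (5, .far (.cross true) .cup 2 1, false),
    (3, .slideCup 2 false, false), (2, .far .cup (.cross true) 2 0, false),
    (2, .oneCup 2 false, false), (3, .far (.cross false) (.cross true) 2 0, true),
    (4, .two 3 true, false), (5, .three 2 false, false), (7, .two 2 false, true),
    (6, .far (.cross false) .cup 3 0, true), (7, .three 3 false, true),
    (9, .far (.cross true) (.cross false) 2 0, false),
    (10, .far (.cross false) (.cross false) 1 1, false),
    (11, .far .cap (.cross false) 0 2, false), (17, .two 4 false, false),
    (15, .three 3 false, false), (14, .two 3 true, true),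
    (16, .far .cap (.cross true) 2 0, false), (5, .far (.cross false) .cup 2 1, true),
    (6, .far (.cross false) (.cross false) 2 0, true), (7, .two 3 true, false),
    (8, .three 2 false, false), (10, .two 2 false, true),
    (9, .far (.cross false) (.cross false) 1 0, false),
    (10, .far .cap (.cross false) 0 1, false),
    (13, .far (.cross false) (.cross false) 1 1, true),
    (14, .far (.cross false) (.cross false) 1 0, true), (15, .slideCap 1 true, false),
    (12, .far (.cross false) (.cross false) 2 0, true), (13, .two 3 true, false),
    (14, .three 2 false, false), (16, .two 2 false, true),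
    (15, .far .cap (.cross false) 1 0, false), (14, .slideCap 1 false, true),
    (13, .far (.cross true) (.cross true) 1 0, false),
    (12, .far (.cross true) (.cross false) 1 1, false), (11, .two 1 false, true),
    (5, .slideCup 4 true, false), (6, .far (.cross true) (.cross true) 3 0, false),
    (7, .far (.cross false) (.cross true) 2 1, false),
    (8, .far (.cross false) (.cross true) 1 2, false),
    (9, .far .cap (.cross true) 0 3, false), (10, .two 2 false, false),
    (14, .slideCap 2 true, true), (13, .far (.cross false) (.cross false) 2 0, false),
    (15, .far (.cross false) .cap 1 0, false),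
    (14, .far (.cross false) (.cross false) 1 1, false), (11, .two 3 false, false),
    (12, .three 2 true, false), (14, .two 2 true, true),
    (13, .far (.cross false) (.cross true) 1 0, false), (12, .two 2 false, false),
    (10, .three 2 false, true), (5, .slideCup 3 false, false),
    (4, .far .cup (.cross true) 3 0, false),
    (6, .far (.cross false) (.cross false) 2 0, false),
    (7, .far (.cross false) (.cross false) 1 1, false),
    (8, .far .cap (.cross false) 0 2, false), (3, .far .cup (.cross true) 3 1, false),
    (5, .far (.cross false) (.cross true) 2 1, false),
    (6, .far (.cross false) (.cross true) 1 2, false),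
    (7, .far .cap (.cross true) 0 3, false),
    (4, .far (.cross false) (.cross true) 2 2, false),
    (5, .far (.cross false) (.cross true) 1 3, false),
    (6, .far .cap (.cross true) 0 4, false), (9, .three 2 false, true),
    (8, .two 3 true, true), (7, .far (.cross false) (.cross true) 2 0, false),
    (15, .slideCap 3 false, true), (16, .far (.cross true) .cap 2 0, false),
    (17, .far .cap .cap 1 1, false), (18, .far .cap .cap 0 0, false),
    (16, .slideCap 1 true, true), (15, .far (.cross false) (.cross true) 1 0, false),
    (17, .far .cap .cap 0 0, false), (14, .far (.cross false) (.cross true) 1 0, false),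
    (16, .far .cap (.cross true) 0 1, false), (15, .far .cap (.cross true) 0 1, false),
    (3, .slideCup 2 true, false), (2, .far .cup .cup 2 0, false),
    (4, .far (.cross false) (.cross true) 1 0, false),
    (5, .far .cap (.cross true) 0 1, false), (3, .far (.cross false) .cup 1 1, false),
    (4, .far .cap .cup 0 2, false), (5, .slideCup 1 false, false),
    (2, .slideCup 1 true, false), (1, .far .cup .cup 1 0, false),
    (3, .far .cap (.cross true) 0 0, false), (2, .far .cap .cup 0 1, false),
    (1, .zigzagRight 0, true), (1, .slideCup 0 false, false), (0, .far .cup .cup 0 0, false),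
    (2, .far .cup (.cross false) 1 0, false), (1, .far .cup .cup 1 1, false),
    (2, .slideCup 3 true, false), (3, .far (.cross false) (.cross true) 2 0, false),
    (4, .far (.cross false) (.cross true) 2 0, false)]

/-- A matched diagram of `8₁₈` with six matched pairs. -/
def matched818 : Word :=
  [(.cup, 0), (.cup, 1), (.cup, 3), (.cross false, 2), (.cross false, 2), (.cross true, 4),
    (.cross true, 4), (.cross false, 3), (.cross false, 3), (.cross true, 2),
    (.cross true, 2), (.cross false, 1), (.cross false, 1), (.cap, 0), (.cross true, 1),
    (.cross true, 1), (.cap, 0), (.cap, 0)]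

lemma run_chain : run knot818 chain = some matched818 := by
  decide +kernel

lemma isotopic_matched818 : Isotopic knot818 matched818 :=
  isotopic_of_run (by decide) run_chain

lemma matched_matched818 : Matched [] matched818 [] :=
  Matched.cup [] [] [] false _ <|
    Matched.cup [false] [true] [] true _ <|
    Matched.cup [false, true, false] [true] [] true _ <|
    Matched.pair [false, true] [false, true] [] false false _ <|
    Matched.pair [false, true, false, true] [] [] false true _ <|
    Matched.pair [false, true, false] [true] [] true false _ <|
    Matched.pair [false, true] [false, true] [] false true _ <|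
    Matched.pair [false] [true, false, true] [] true false _ <|
    Matched.cap [] [false, true, false, true] [] false _ <|
    Matched.pair [false] [true] [] true true _ <|
    Matched.cap [] [false, true] [] false _ <|
    Matched.cap [] [] [] false _ <|
    Matched.nil []

theorem main : ∃ w : Word, IsDiagram w ∧ Matched [] w [] ∧ Isotopic w knot818 :=
  ⟨matched818, by decide, matched_matched818, isotopic_matched818.symm⟩

end Pool.Agent.MatchedKnot
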