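import Mathlib

/-!
Knot diagrams in Morse form, their isotopy, and matched diagrams.
-/

namespace Pool.Agent.MatchedKnot

/-- The elementary pieces of an unoriented diagram which is read from the bottom to the top: a local
minimum `cup`, a local maximum `cap`, and a crossing of two strands going up. In `cross true` the
strand going from the lower left to the upper right is the upper one, in `cross false` it is the
lower one. -/
inductive Kind
  | cup
  | cap
  | cross (s : Bool)
  deriving DecidableEq

/-- Number of strands which enter a piece from below. -/
def Kind.ins : Kind → ℕ
  | .cup => 0
  | .cap => 2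
  | .cross _ => 2

/-- Number of strands which leave a piece to the top. -/
def Kind.outs : Kind → ℕ
  | .cup => 2
  | .cap => 0
  | .cross _ => 2

/-- A word describes a diagram from the bottom to the top. The letter `(p, i)` stands for a
horizontal slice of the diagram which consists of the piece `p` with exactly `i` vertical strands
to the left of it, and further vertical strands to the right. -/
abbrev Word := List (Kind × ℕ)

/-- The number of strands above the word `w` if there are `n` strands below. It is `none` if the
slices do not fit together. -/
def width : ℕ → Word → Option ℕ
  | n, [] => some n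
  | n, (p, i) :: w => if i + p.ins ≤ n then width (n - p.ins + p.outs) w else none

/-- The word is a diagram of a link: it starts and ends with no strands. -/
def IsDiagram (w : Word) : Prop := width 0 w = some 0

instance (w : Word) : Decidable (IsDiagram w) := inferInstanceAs (Decidable (_ = _))

/-- The local moves: planar isotopies and Reidemeister moves. -/
inductive Move : Word → Word → Prop
  /-- Two pieces beside each other may exchange their heights. -/
  | far (p q : Kind) (i d : ℕ) : Move [(p, i), (q, i + d + p.outs)] [(q, i + d + p.ins), (p, i)]
  /-- A minimum and a maximum cancel. -/
  | zigzagLeft (i : ℕ) : Move [(.cup, i), (.cap, i + 1)] []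
  /-- A minimum and a maximum cancel. -/
  | zigzagRight (i : ℕ) : Move [(.cup, i + 1), (.cap, i)] []
  /-- A strand which crosses the right leg of a minimum is moved to the left leg. -/
  | slideCup (i : ℕ) (s : Bool) :
      Move [(.cup, i), (.cross s, i + 1)] [(.cup, i + 1), (.cross !s, i)]
  /-- A strand which crosses the right leg of a maximum is moved to the left leg. -/
  | slideCap (i : ℕ) (s : Bool) :
      Move [(.cross s, i + 1), (.cap, i)] [(.cross !s, i), (.cap, i + 1)]
  /-- The first Reidemeister move at a minimum. -/
  | oneCup (i : ℕ) (s : Bool) : Move [(.cup, i), (.cross s, i)] [(.cup, i)]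
  /-- The first Reidemeister move at a maximum. -/
  | oneCap (i : ℕ) (s : Bool) : Move [(.cross s, i), (.cap, i)] [(.cap, i)]
  /-- The second Reidemeister move. -/
  | two (i : ℕ) (s : Bool) : Move [(.cross s, i), (.cross !s, i)] []
  /-- The third Reidemeister move. -/
  | three (i : ℕ) (s : Bool) :
      Move [(.cross s, i), (.cross s, i + 1), (.cross s, i)]
        [(.cross s, i + 1), (.cross s, i), (.cross s, i + 1)]

/-- Isotopy of diagrams: the equivalence relation generated by the local moves between diagrams. -/
inductive Isotopic : Word → Word → Prop
  | refl (w : Word) : Isotopic w w
  | symm {v w : Word} : Isotopic v w → Isotopic w v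
  | trans {u v w : Word} : Isotopic u v → Isotopic v w → Isotopic u w
  | move (a b : Word) {l r : Word} : Move l r → IsDiagram (a ++ l ++ b) →
      IsDiagram (a ++ r ++ b) → Isotopic (a ++ l ++ b) (a ++ r ++ b)

/-- `Matched a w b`: the word `w` can be oriented such that the strands below (above) it have the
orientations `a` (`b`), where `true` means upwards, and all crossings of `w` occur in matched
pairs: two crossings of the same type directly above each other, with one of the two strands
oriented upwards and the other one downwards. -/
inductive Matched : List Bool → Word → List Bool → Prop
  | nil (a : List Bool) : Matched a [] a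
  | cup (a b c : List Bool) (o : Bool) (w : Word) : Matched (a ++ o :: (!o) :: b) w c →
      Matched (a ++ b) ((.cup, a.length) :: w) c
  | cap (a b c : List Bool) (o : Bool) (w : Word) : Matched (a ++ b) w c →
      Matched (a ++ o :: (!o) :: b) ((.cap, a.length) :: w) c
  | pair (a b c : List Bool) (o s : Bool) (w : Word) : Matched (a ++ o :: (!o) :: b) w c →
      Matched (a ++ o :: (!o) :: b) ((.cross s, a.length) :: (.cross s, a.length) :: w) c

/-- The standard diagram of the knot `8₁₈`: the closure of the 3-braid `(σ₁ σ₂⁻¹)⁴`. -/
def knot818 : Word :=
  [(.cup, 0), (.cup, 1), (.cup, 2),
    (.cross true, 0), (.cross false, 1), (.cross true, 0), (.cross false, 1),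
    (.cross true, 0), (.cross false, 1), (.cross true, 0), (.cross false, 1),
    (.cap, 2), (.cap, 1), (.cap, 0)]

end Pool.Agent.MatchedKnot
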